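import Mathlib
import Pool.Agent.Lib.MP_ec0437_lc.Lang

/-!
# A restrained expansion of the real field with a definable surjection `ℝ → ℝ²`

This answers Q1 of MP_ec0437_lc in the negative, already for expansions of the real field.
-/

set_option autoImplicit false

open Set FirstOrder FirstOrder.Language

namespace Pool.Agent.Results.MP_ec0437_lc.DefinableSurjection

universe u v w

/-- The `L`-structure on the ordered field `K` is a first-order expansion of the ordered field `K`:
the graphs of addition and multiplication and the strict order are definable without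
parameters. -/
def ExpandsOrderedField (L : FirstOrder.Language.{u, v}) (K : Type w) [Field K] [LinearOrder K]
    [L.Structure K] : Prop :=
  (∅ : Set K).Definable L {x : Fin 3 → K | x 0 + x 1 = x 2} ∧
  (∅ : Set K).Definable L {x : Fin 3 → K | x 0 * x 1 = x 2} ∧
  (∅ : Set K).Definable L {x : Fin 2 → K | x 0 < x 1}

/-- Definable completeness: every nonempty definable (with parameters) subset of `K` that is
bounded above has a least upper bound, and every nonempty definable subset that is bounded below
has a greatest lower bound. -/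
def DefinablyComplete (L : FirstOrder.Language.{u, v}) (K : Type w) [LinearOrder K]
    [L.Structure K] : Prop :=
  ∀ X : Set K, (univ : Set K).Definable₁ L X → X.Nonempty →
    (BddAbove X → ∃ s, IsLUB X s) ∧ (BddBelow X → ∃ s, IsGLB X s)

/-- A map `g : C → K^n`, defined on a subset `C` of `K^m`, is definable (with parameters): its
graph is a definable subset of `K^m × K^n`. -/
def DefinableOn (L : FirstOrder.Language.{u, v}) {K : Type w} [L.Structure K] {m n : ℕ}
    (C : Set (Fin m → K)) (g : C → (Fin n → K)) : Prop :=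
  (univ : Set K).Definable L
    {x : Fin m ⊕ Fin n → K | ∃ h : (fun i => x (Sum.inl i)) ∈ C,
      g ⟨fun i => x (Sum.inl i), h⟩ = fun j => x (Sum.inr j)}

/-- The structure is restrained: for every definable discrete `D ⊆ K^n` and every definable
`g : D → K`, the image `g(D)` is nowhere dense in `K`. (`g : D → K` is presented as a map into
`K^1`.) -/
def Restrained (L : FirstOrder.Language.{u, v}) (K : Type w) [TopologicalSpace K]
    [L.Structure K] : Prop :=
  ∀ (n : ℕ) (D : Set (Fin n → K)), (univ : Set K).Definable L D →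
    (∀ x ∈ D, ∃ U : Set (Fin n → K), IsOpen U ∧ U ∩ D = {x}) →
    ∀ g : D → K, DefinableOn L D (fun x => fun _ : Fin 1 => g x) →
      IsNowhereDense (range g)

/-- `D_Σ` sets: definable sets that are the projection to the first `m` coordinates of a definable
closed subset of `K^(m+1)`. -/
def IsDSigma (L : FirstOrder.Language.{u, v}) {K : Type w} [TopologicalSpace K] [L.Structure K]
    {m : ℕ} (X : Set (Fin m → K)) : Prop :=
  (univ : Set K).Definable L X ∧
  ∃ Y : Set (Fin (m + 1) → K), (univ : Set K).Definable L Y ∧ IsClosed Y ∧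
    X = (fun y => fun i : Fin m => y (Fin.castSucc i)) '' Y

open Classical in
/-- The dimension of `X ⊆ K^m`: the largest `e` such that for some set `I` of `e` coordinates the
projection of `X` to these coordinates has nonempty interior; `⊥` if there is none (that is, if `X`
is empty). -/
noncomputable def dim {K : Type w} [TopologicalSpace K] {m : ℕ} (X : Set (Fin m → K)) :
    WithBot ℕ :=
  (Finset.univ : Finset (Finset (Fin m))).sup fun I =>
    if (interior ((fun (x : Fin m → K) (i : I) => x i) '' X)).Nonempty then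
      ((I.card : ℕ) : WithBot ℕ) else ⊥

section Dim

variable {K : Type w} [TopologicalSpace K]

theorem dim_univ [Nonempty K] (m : ℕ) : dim (univ : Set (Fin m → K)) = (m : WithBot ℕ) := by
  classical
  apply le_antisymm
  · unfold dim
    apply Finset.sup_le
    intro I _
    split_ifs
    · have := Finset.card_le_univ I
      rw [Fintype.card_fin] at this
      exact_mod_cast this
    · exact bot_le
  · unfold dim
    have hne : (interior ((fun (x : Fin m → K) (i : (Finset.univ : Finset (Fin m))) => x i) ''
        univ)).Nonempty := by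
      have : ((fun (x : Fin m → K) (i : (Finset.univ : Finset (Fin m))) => x i) '' univ) = univ := by
        rw [Set.image_univ, Set.range_eq_univ]
        intro y
        exact ⟨fun i => y ⟨i, Finset.mem_univ i⟩, rfl⟩
      rw [this, interior_univ]
      exact univ_nonempty
    have := Finset.le_sup (s := (Finset.univ : Finset (Finset (Fin m))))
      (f := fun I => if (interior ((fun (x : Fin m → K) (i : I) => x i) ''
        (univ : Set (Fin m → K)))).Nonempty then ((I.card : ℕ) : WithBot ℕ) else ⊥)
      (Finset.mem_univ Finset.univ)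
    rw [if_pos hne, Finset.card_univ, Fintype.card_fin] at this
    exact this

end Dim

open Pool.Agent.Lib.MP_ec0437_lc

/-- The real line is definably complete for every structure. -/
theorem real_definablyComplete (L : FirstOrder.Language.{u, v}) [L.Structure ℝ] :
    DefinablyComplete L ℝ :=
  fun X _ hne => ⟨fun hb => ⟨sSup X, isLUB_csSup hne hb⟩, fun hb => ⟨sInf X, isGLB_csInf hne hb⟩⟩

/-- A discrete subset of `ℝ^n` is countable. -/
theorem countable_of_discrete {n : ℕ} {D : Set (Fin n → ℝ)}
    (hD : ∀ x ∈ D, ∃ U : Set (Fin n → ℝ), IsOpen U ∧ U ∩ D = {x}) : D.Countable := by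
  have : DiscreteTopology D := by
    rw [discreteTopology_iff_isOpen_singleton]
    rintro ⟨x, hx⟩
    obtain ⟨U, hU, hUD⟩ := hD x hx
    rw [isOpen_induced_iff]
    refine ⟨U, hU, ?_⟩
    ext ⟨y, hy⟩
    simp only [mem_preimage, mem_singleton_iff, Subtype.mk.injEq]
    constructor
    · intro h
      have : y ∈ U ∩ D := ⟨h, hy⟩
      rw [hUD] at this
      exact this
    · rintro rfl
      have : y ∈ U ∩ D := by rw [hUD]; exact rfl
      exact this.1
  exact (TopologicalSpace.separableSpace_iff_countable.1 inferInstance : Countable D).to_set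

theorem restrained_of_generic [HasF] (hf : Generic HasF.f) : Restrained Lof ℝ := by
  intro n D _ hdisc g hg
  have hDc : D.Countable := countable_of_discrete hdisc
  -- the image is definable
  have hE := isE_of_definable hf hg
  have h1 : IsE HasF.f {y : Unit → ℝ | ∃ x : Fin n → ℝ, ∃ h : x ∈ D, g ⟨x, h⟩ = y ()} := by
    apply IsE.exFin (P := fun (y : Unit → ℝ) (x : Fin n → ℝ) => ∃ h : x ∈ D, g ⟨x, h⟩ = y ())
    have := IsE.preimage (g := fun w : Unit ⊕ Fin n → ℝ =>
      (Sum.elim (fun i => w (Sum.inr i)) (fun _ : Fin 1 => w (Sum.inl ())) : Fin n ⊕ Fin 1 → ℝ))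
      (by
        rintro (i | i)
        · exact PolyFun.coord _
        · exact PolyFun.coord _) hE
    refine (congrArg (IsE HasF.f) ?_).mp this
    ext w
    constructor
    · rintro ⟨h, hw⟩
      exact ⟨h, congrFun hw 0⟩
    · rintro ⟨h, hw⟩
      exact ⟨h, funext fun _ => hw⟩
  have hcount : {y : Unit → ℝ | ∃ x : Fin n → ℝ, ∃ h : x ∈ D, g ⟨x, h⟩ = y ()}.Countable := by
    have : Countable D := hDc.to_subtype
    have h2 : {y : Unit → ℝ | ∃ x : Fin n → ℝ, ∃ h : x ∈ D, g ⟨x, h⟩ = y ()} ⊆
        range (fun d : D => (fun _ : Unit => g d)) := by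
      rintro y ⟨x, h, hy⟩
      exact ⟨⟨x, h⟩, funext fun _ => hy⟩
    exact (countable_range _).mono h2
  have hfin := h1.finite_of_countable hf hcount
  have hfin2 : (range g).Finite := by
    have : range g ⊆ (fun y : Unit → ℝ => y ()) ''
        {y : Unit → ℝ | ∃ x : Fin n → ℝ, ∃ h : x ∈ D, g ⟨x, h⟩ = y ()} := by
      rintro _ ⟨⟨x, h⟩, rfl⟩
      exact ⟨fun _ => g ⟨x, h⟩, ⟨x, h, rfl⟩, rfl⟩
    exact (hfin.image _).subset this
  rw [IsNowhereDense, hfin2.isClosed.closure_eq, interior_eq_empty_iff_dense_compl]
  exact hfin2.countable.dense_compl ℝ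

/-- the order symbol of `Lof`. -/
def ltSym : Lof.Relations 2 := ORel.lt

/-- Ring operations and order are definable without parameters in `Lof`. -/
theorem lof_expands [HasF] : ExpandsOrderedField Lof ℝ := by
  refine ⟨?_, ?_, ?_⟩
  · rw [empty_definable_iff]
    refine ⟨Term.equal (Term.func (L := Lof) OFunc.add ![Term.var 0, Term.var 1]) (Term.var 2), ?_⟩
    ext x
    rw [mem_ofPred_eq, mem_ofPred_eq, Formula.realize_equal]
    exact Iff.rfl
  · rw [empty_definable_iff]
    refine ⟨Term.equal (Term.func (L := Lof) OFunc.mul ![Term.var 0, Term.var 1]) (Term.var 2), ?_⟩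
    ext x
    rw [mem_ofPred_eq, mem_ofPred_eq, Formula.realize_equal]
    exact Iff.rfl
  · rw [empty_definable_iff]
    refine ⟨Relations.formula ltSym ![Term.var 0, Term.var 1], ?_⟩
    ext x
    rw [mem_ofPred_eq, mem_ofPred_eq, Formula.realize_rel]
    exact Iff.rfl

/-- The definable map `x ↦ (f x, f (x + 1))`. -/
def surj [HasF] (x : (univ : Set (Fin 1 → ℝ))) : Fin 2 → ℝ :=
  ![HasF.f (x.1 0), HasF.f (x.1 0 + 1)]

theorem surj_definable [HasF] : DefinableOn Lof (univ : Set (Fin 1 → ℝ)) surj := by
  have h1 : (∅ : Set ℝ).Definable Lof {x : Fin 1 ⊕ Fin 2 → ℝ |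
      HasF.f (x (Sum.inl 0)) = x (Sum.inr 0)} := by
    rw [empty_definable_iff]
    refine ⟨Term.equal (Term.func (L := Lof) OFunc.fn ![Term.var (Sum.inl 0)])
      (Term.var (Sum.inr 0)), ?_⟩
    ext x
    rw [mem_ofPred_eq, mem_ofPred_eq, Formula.realize_equal]
    exact Iff.rfl
  have h2 : (∅ : Set ℝ).Definable Lof {x : Fin 1 ⊕ Fin 2 → ℝ |
      HasF.f (x (Sum.inl 0) + 1) = x (Sum.inr 1)} := by
    rw [empty_definable_iff]
    refine ⟨Term.equal (Term.func (L := Lof) OFunc.fn ![Term.func (L := Lof) OFunc.add
      ![Term.var (Sum.inl 0), Term.func (L := Lof) OFunc.one ![] ] ])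
      (Term.var (Sum.inr 1)), ?_⟩
    ext x
    rw [mem_ofPred_eq, mem_ofPred_eq, Formula.realize_equal]
    exact Iff.rfl
  have h3 := (h1.inter h2).mono (empty_subset (univ : Set ℝ))
  unfold DefinableOn
  refine (congrArg ((univ : Set ℝ).Definable Lof) ?_).mp h3
  ext x
  constructor
  · rintro ⟨h1, h2⟩
    refine ⟨mem_univ _, ?_⟩
    funext j
    fin_cases j
    · exact h1
    · exact h2
  · rintro ⟨_, h⟩
    exact ⟨congrFun h 0, congrFun h 1⟩

theorem surj_surjective [HasF] (hf : Generic HasF.f) : Function.Surjective surj := by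
  intro y
  obtain ⟨s, hs1, hs2, hs3⟩ := hf.plain (k := 2)
    (S := fun s t => s 1 = s 0 + 1 ∧ t 0 = y 0 ∧ t 1 = y 1) (by
      apply SA.and
      · exact SA.eq (PolyFun.coord _) ((PolyFun.coord _).add (PolyFun.const 1))
      · apply SA.and
        · exact SA.eq (PolyFun.coord _) (PolyFun.const _)
        · exact SA.eq (PolyFun.coord _) (PolyFun.const _)) (by
      rintro ⟨D, hD, hDs⟩
      have hD' : Cardinal.mk (D ∪ (fun y => y - 1) '' D : Set ℝ) < Cardinal.continuum :=
        mk_union_lt hD (Cardinal.mk_image_le.trans_lt hD)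
      have : ∃ x : ℝ, x ∉ (D ∪ (fun y => y - 1) '' D : Set ℝ) := by
        by_contra hcon
        push Not at hcon
        have h1 : (D ∪ (fun y => y - 1) '' D : Set ℝ) = univ := eq_univ_of_forall hcon
        rw [h1, Cardinal.mk_univ, Cardinal.mk_real] at hD'
        exact lt_irrefl _ hD'
      obtain ⟨x, hx⟩ := this
      obtain ⟨i, hi⟩ := hDs ![x, x + 1] ⟨y, by simp⟩ (by
        intro i j hij
        fin_cases i <;> fin_cases j <;> simp_all)
      fin_cases i
      · exact hx (Or.inl hi)
      · exact hx (Or.inr ⟨x + 1, hi, by simp⟩))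
  refine ⟨⟨fun _ => s 0, mem_univ _⟩, ?_⟩
  funext j
  fin_cases j
  · exact hs2
  · change HasF.f (s 0 + 1) = y 1
    rw [← hs1]
    exact hs3

/-- **Main theorem** (negative answer to Q1). There is an expansion of the real field which is
definably complete and restrained and has a `D_Σ` set `C` (namely `C = ℝ`) and a definable map
`F : C → ℝ²` with `dim F(C) > dim C`; in fact `F` maps `ℝ` onto `ℝ²`. -/
theorem result : ∃ (L : FirstOrder.Language.{0, 0}) (_ : L.Structure ℝ),
    ExpandsOrderedField L ℝ ∧ DefinablyComplete L ℝ ∧ Restrained L ℝ ∧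
    ∃ (C : Set (Fin 1 → ℝ)) (F : C → (Fin 2 → ℝ)),
      IsDSigma L C ∧ DefinableOn L C F ∧ dim C < dim (range F) ∧
      C = univ ∧ Function.Surjective F := by
  obtain ⟨f, hf⟩ := exists_generic
  let _ : HasF := ⟨f⟩
  have hf' : Generic HasF.f := hf
  refine ⟨Lof, realStructure, lof_expands, real_definablyComplete Lof, restrained_of_generic hf',
    univ, surj, ⟨definable_univ, univ, definable_univ, isClosed_univ, ?_⟩, surj_definable, ?_, rfl,
    surj_surjective hf'⟩
  · symm
    rw [image_univ, range_eq_univ]
    intro y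
    exact ⟨fun i => y 0, funext fun i => by rw [Subsingleton.elim i 0]⟩
  · rw [(surj_surjective hf').range_eq, dim_univ, dim_univ]
    norm_num

end Pool.Agent.Results.MP_ec0437_lc.DefinableSurjection
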